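import Mathlib
import Pool.Agent.Helper27.TC.Plane

/-!
# `{2,2}`-choosability of plane graphs: vertices of degree four with alternating neighbours

The definitions used are in `Pool.Agent.Helper27.TC.Defs` (`TwoTwoChoosable`, `nShared`, `Thick`),
`Pool.Agent.Helper27.TC.Free` (`IsFree`) and `Pool.Agent.Helper65.TT.Defs` (rotation systems).
-/

set_option autoImplicit false

namespace Pool.Agent.Results.MP_adcd31_co.FreeVertices

open SimpleGraph Pool.Agent.Helper27.TC Pool.Agent.Helper65.TT

/-- **Main theorem.** Let `G` be a finite connected plane graph, given by a rotation system `σ`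
which satisfies Euler's formula, with a proper colouring `c` by the colours `0, 1, 2`. A vertex is
free if it has colour `0` and degree at most four and the colours of its neighbours alternate around
it. A set `S` of vertices of colour `0` is thick if it is not empty and every `x ∈ S` has at least
two neighbours of colour `1` and at least two neighbours of colour `2` which have another neighbour
in `S`. If every thick set `S` without free vertices satisfies `Σ_{x ∈ S} (deg x - 4)⁺ ≤ 5`, then
every subgraph of `G` is `{2,2}`-choosable. -/
theorem result {V V₀ : Type} [Fintype V] (G : SimpleGraph V) (hcon : G.Connected)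
    (σ : Equiv.Perm G.Dart) (hσ : IsRotationSystem G σ)
    (he : Nat.card V + numFaces G σ = G.edgeSet.ncard + 2)
    (c : V → Fin 3) (hc : ∀ u v, G.Adj u v → c u ≠ c v)
    (hex : ∀ S : Finset V, Thick G c S → (∀ x ∈ S, ¬ IsFree G σ c x) →
      ∑ x ∈ S, ((G.neighborSet x).ncard - 4) ≤ 5)
    (G₀ : SimpleGraph V₀) (φ : G₀ →g G) (hφ : Function.Injective φ) :
    TwoTwoChoosable G₀ :=
  TwoTwoChoosable.of_hom (plane_criterion G hcon σ hσ he c hc hex) φ hφ

end Pool.Agent.Results.MP_adcd31_co.FreeVertices
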