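import Mathlib
import Pool.Agent.Helper27.TC.Cor

/-!
# `{2,2}`-choosability of planar graphs: a colour class with few shared neighbours

The definitions used are in `Pool.Agent.Helper27.TC.Defs` (`TwoTwoChoosable`, `Planar`, `edgesAt`,
`nShared`, `Thick`) and `Pool.Agent.Helper65.TT.Defs` (rotation systems and Euler's formula).
-/

set_option autoImplicit false

namespace Pool.Agent.Results.MP_adcd31_co.SmallClass

open SimpleGraph Pool.Agent.Helper27.TC

/-- Let `G` be a finite planar graph with a proper colouring `c` by the colours `0, 1, 2`.

1. If the degrees of the vertices of colour `0` have total excess over four at most five, for instance if they are all at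
most four, then `G` is `{2,2}`-choosable.
2. If the graph of the edges with an end of colour `0` has girth at least eight, then `G` is `{2,2}`-choosable.
3. The general criterion. For a set `S` of vertices of colour `0` and `x ∈ S` let `s₁(x)` and `s₂(x)` be the numbers of
neighbours of `x` of colour `1` and `2` which have another neighbour in `S`. The set `S` is thick if it is not empty and
`2 ≤ s₁(x)` and `2 ≤ s₂(x)` for all `x ∈ S`. If for every thick set `S` there is a number `g`, at most the girth of the
graph of the edges at `S`, with `2 Σ_{x ∈ S} (s₁(x) + s₂(x) - g)⁺ < 3 g`, then `G` is `{2,2}`-choosable. -/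
theorem result {V : Type} [Fintype V] (G : SimpleGraph V) (hG : Planar G) (c : V → Fin 3)
    (hc : ∀ u v, G.Adj u v → c u ≠ c v) :
    -- (1) a colour class of small degrees
    (∑ x with c x = 0, ((G.neighborSet x).ncard - 4) ≤ 5 → TwoTwoChoosable G) ∧
    -- (2) a sparse colour class
    ((8 : ℕ∞) ≤ (edgesAt G {v | c v = 0}).egirth → TwoTwoChoosable G) ∧
    -- (3) the general criterion
    ((∀ S : Finset V, Thick G c S → ∃ g : ℕ, (g : ℕ∞) ≤ (edgesAt G (S : Set V)).egirth ∧
      2 * ∑ x ∈ S, (nShared G c S x 1 + nShared G c S x 2 - g) < 3 * g) → TwoTwoChoosable G) :=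
  ⟨degree_four G hG c hc, girth_eight G hG c hc, planar_criterion G hG c hc⟩

end Pool.Agent.Results.MP_adcd31_co.SmallClass
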